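import Pool.Agent.H34.PS.Targets

/-!
# Many primes modulo which `b` is not a square (row KQ of the board psq_modules)
-/

set_option autoImplicit false

open Finset
open Pool.Agent.H34.PS

namespace Pool.Agent.H75.PSQ

/-- the term of the series over the primes -/
noncomputable def tm (η : ℝ) (P : ℕ → Prop) [DecidablePred P] (p : Nat.Primes) : ℝ :=
  if P (p : ℕ) then ((p : ℕ) : ℝ) ^ (-(1 + η)) else 0

theorem tm_nonneg (η : ℝ) (P : ℕ → Prop) [DecidablePred P] (p : Nat.Primes) :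
    0 ≤ tm η P p := by
  unfold tm
  split_ifs
  · positivity
  · exact le_rfl

theorem tm_summable {η : ℝ} (hη : 0 < η) (P : ℕ → Prop) [DecidablePred P] :
    Summable (tm η P) := by
  have h : Summable (fun p : Nat.Primes => ((p : ℕ) : ℝ) ^ (-(1 + η))) :=
    Nat.Primes.summable_rpow.2 (by linarith)
  refine Summable.of_nonneg_of_le (tm_nonneg η P) (fun p => ?_) h
  unfold tm
  split_ifs
  · exact le_rfl
  · positivity

theorem tm_le_inv {η : ℝ} (hη : 0 < η) (P : ℕ → Prop) [DecidablePred P] (p : Nat.Primes) :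
    tm η P p ≤ 1 / ((p : ℕ) : ℝ) := by
  have h1 : (1 : ℝ) ≤ ((p : ℕ) : ℝ) := by exact_mod_cast p.2.one_lt.le
  unfold tm
  split_ifs
  · rw [one_div, ← Real.rpow_neg_one]
    exact Real.rpow_le_rpow_of_exponent_le h1 (by linarith)
  · positivity

theorem tm_le_one {η : ℝ} (hη : 0 < η) (P : ℕ → Prop) [DecidablePred P] (p : Nat.Primes) :
    tm η P p ≤ 1 := by
  have h1 : (1 : ℝ) ≤ ((p : ℕ) : ℝ) := by exact_mod_cast p.2.one_lt.le
  refine (tm_le_inv hη P p).trans ?_
  rw [div_le_one (by linarith)]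
  exact h1

theorem sum_bad_le {b : ℕ} {N₀ : ℕ} {K η : ℝ} (hη : 0 < η)
    (P : ℕ → Prop) [DecidablePred P]
    (hP : ∀ p, P p → p % 4 = 1 ∧ chi (b : ℤ) p ≠ 1)
    (hK : ∀ S : Finset ℕ, (∀ q ∈ S, q.Prime ∧ q % 4 = 1 ∧ N₀ < q ∧ chi (b : ℤ) q ≠ 1) →
      ∑ q ∈ S, (1 : ℝ) / (q : ℝ) < K) :
    ∑' p : Nat.Primes, tm η P p ≤ (N₀ + 1 : ℝ) + K := by
  classical
  refine (tm_summable hη P).tsum_le_of_sum_le (fun T => ?_)
  rw [← sum_filter_add_sum_filter_not T (fun p : Nat.Primes => (p : ℕ) ≤ N₀)]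
  refine add_le_add ?_ ?_
  · have h1 : ∑ p ∈ T.filter (fun p : Nat.Primes => (p : ℕ) ≤ N₀), tm η P p ≤
        ∑ _p ∈ T.filter (fun p : Nat.Primes => (p : ℕ) ≤ N₀), (1 : ℝ) :=
      sum_le_sum (fun p _ => tm_le_one hη P p)
    have h2 : (T.filter (fun p : Nat.Primes => (p : ℕ) ≤ N₀)).card ≤ N₀ + 1 := by
      have h3 : (T.filter (fun p : Nat.Primes => (p : ℕ) ≤ N₀)).card ≤ (range (N₀ + 1)).card :=
        card_le_card_of_injOn (fun p : Nat.Primes => (p : ℕ))
          (fun p hp => by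
            have hp' := (mem_filter.1 (mem_coe.1 hp)).2
            exact mem_coe.2 (mem_range.2 (Nat.lt_succ_of_le hp')))
          (fun p _ q _ h => Subtype.ext h)
      simpa using h3
    rw [sum_const, nsmul_eq_mul, mul_one] at h1
    refine h1.trans ?_
    exact_mod_cast h2
  · set U := (T.filter (fun p : Nat.Primes => ¬ (p : ℕ) ≤ N₀)) with hU
    have h1 : ∑ p ∈ U, tm η P p = ∑ p ∈ U.filter (fun p : Nat.Primes => P (p : ℕ)), tm η P p := by
      refine (sum_filter_of_ne (fun p _ hne => ?_)).symm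
      by_contra hP2
      exact hne (by unfold tm; rw [if_neg hP2])
    rw [h1]
    have h2 : ∑ p ∈ U.filter (fun p : Nat.Primes => P (p : ℕ)), tm η P p ≤
        ∑ p ∈ U.filter (fun p : Nat.Primes => P (p : ℕ)), (1 : ℝ) / ((p : ℕ) : ℝ) :=
      sum_le_sum (fun p _ => tm_le_inv hη P p)
    have h3 : ∑ p ∈ U.filter (fun p : Nat.Primes => P (p : ℕ)), (1 : ℝ) / ((p : ℕ) : ℝ) =
        ∑ q ∈ (U.filter (fun p : Nat.Primes => P (p : ℕ))).image (fun p : Nat.Primes => (p : ℕ)),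
          (1 : ℝ) / (q : ℝ) := by
      exact (sum_image (f := fun q : ℕ => (1 : ℝ) / (q : ℝ))
        (g := fun p : Nat.Primes => (p : ℕ)) (fun p _ q _ h => Subtype.ext h)).symm
    have h4 := hK ((U.filter (fun p : Nat.Primes => P (p : ℕ))).image
      (fun p : Nat.Primes => (p : ℕ))) (fun q hq => by
        obtain ⟨p, hp, rfl⟩ := mem_image.1 hq
        obtain ⟨hp1, hp2⟩ := mem_filter.1 hp
        have hp3 := (mem_filter.1 hp1).2
        exact ⟨p.2, (hP _ hp2).1, by omega, (hP _ hp2).2⟩)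
    linarith

theorem pf_KQ (hMU : T_MU) (hML : T_ML) : T_KQ := by
  classical
  intro b hb hsq N₀ K
  by_contra hcon
  push Not at hcon
  have hK : ∀ S : Finset ℕ, (∀ q ∈ S, q.Prime ∧ q % 4 = 1 ∧ N₀ < q ∧ chi (b : ℤ) q ≠ 1) →
      ∑ q ∈ S, (1 : ℝ) / (q : ℝ) < K := fun S hS => hcon S hS
  set C : ℝ := Real.log (2 + Real.log 4) + 2 * Real.log (2 + Real.log (4 * b)) with hC
  have key : ∀ η : ℝ, 0 < η → η ≤ 1 → Real.log (1 / η) ≤
      Real.log 2 + C + 4 * (N₀ + 3 + K) := by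
    intro η hη hη1
    have h1 := hMU b hb hsq η hη hη1
    have h2 := hML η hη hη1
    have h3 : ∑' p : Nat.Primes, (if (p : ℕ) % 4 = 1 then ((p : ℕ) : ℝ) ^ (-(1 + η)) else 0) =
        ∑' p : Nat.Primes, tm η (fun p => p % 4 = 1 ∧ chi (b : ℤ) p = 1) p +
        ∑' p : Nat.Primes, tm η (fun p => p % 4 = 1 ∧ chi (b : ℤ) p ≠ 1) p := by
      rw [← (tm_summable hη _).tsum_add (tm_summable hη _)]
      refine tsum_congr (fun p => ?_)
      unfold tm
      by_cases h4 : (p : ℕ) % 4 = 1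
      · by_cases h5 : chi (b : ℤ) p = 1
        · simp [h4, h5]
        · simp [h4, h5]
      · simp [h4]
    have h4 : ∑' p : Nat.Primes, (if (p : ℕ) % 4 = 1 ∧ chi (b : ℤ) p = 1 then
        ((p : ℕ) : ℝ) ^ (-(1 + η)) else 0) =
        ∑' p : Nat.Primes, tm η (fun p => p % 4 = 1 ∧ chi (b : ℤ) p = 1) p := by
      refine tsum_congr (fun p => ?_)
      unfold tm
      by_cases h4 : (p : ℕ) % 4 = 1 ∧ chi (b : ℤ) p = 1
      · simp [h4]
      · simp only [h4, if_false]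
    have h5 := sum_bad_le (b := b) (N₀ := N₀) (K := K) hη
      (fun p => p % 4 = 1 ∧ chi (b : ℤ) p ≠ 1) (fun p hp => hp) hK
    have h6 : Real.log (1 + 1 / η) ≤ Real.log 2 + Real.log (1 / η) := by
      rw [← Real.log_mul (by norm_num) (by positivity)]
      refine Real.log_le_log (by positivity) ?_
      have : 1 ≤ 1 / η := by
        rw [le_div_iff₀ hη]
        linarith
      linarith
    rw [h4] at h1
    rw [h3] at h2
    linarith
  set M : ℝ := Real.log 2 + C + 4 * (N₀ + 3 + K) with hM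
  have h7 := key (Real.exp (-(|M| + 1))) (Real.exp_pos _) (by
    rw [Real.exp_le_one_iff]
    have := abs_nonneg M
    linarith)
  rw [one_div, ← Real.exp_neg, Real.log_exp, neg_neg] at h7
  have := le_abs_self M
  linarith

end Pool.Agent.H75.PSQ
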