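import Pool.Agent.H34.PS.Targets

/-!
# A fixed `b` is harmless (row SB of the board psq_modules)
-/

set_option autoImplicit false

open Finset
open Pool.Agent.H34.PS

namespace Pool.Agent.H75.PSQ

theorem exa_mul {q β m : ℕ} (hq : q.Prime) (hb : ¬ q ∣ β) (h : Exa q m) :
    Exa q (β ^ 3 * m) := by
  refine ⟨h.1.mul_left _, fun hd => h.2 ?_⟩
  have hc : Nat.Coprime (q ^ 2) (β ^ 3) :=
    Nat.Coprime.pow 2 3 ((Nat.Prime.coprime_iff_not_dvd hq).2 hb)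
  exact hc.dvd_of_dvd_mul_left hd

theorem pf_SB (hEX : T_EX) (hKQ : T_KQ) (hKD : T_KD) : T_SB := by
  classical
  intro β hβ b hb hsq ε hε
  obtain ⟨S, hS, hK⟩ := hKQ b hb hsq β (Real.log (2 / ε))
  obtain ⟨Y₀, hY⟩ := hKD S (fun q hq => ⟨(hS q hq).1, (hS q hq).2.1⟩)
  refine ⟨Y₀, fun Y hYY => ?_⟩
  have h1 := hY Y hYY
  refine le_trans ?_ (le_trans h1 ?_)
  · refine Nat.cast_le.2 (card_le_card (fun a ha => ?_))
    rw [mem_filter] at ha ⊢
    refine ⟨ha.1, fun q hq hex => ?_⟩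
    obtain ⟨x, v, hxv⟩ := ha.2
    obtain ⟨hqp, hq4, hqβ, hqc⟩ := hS q hq
    have hnd : ¬ q ∣ β := fun hd => absurd (Nat.le_of_dvd (by omega) hd) (by omega)
    have h2 := exa_mul hqp hnd hex
    exact hqc (hEX q b x v _ hqp hq4 hxv h2)
  · have h2 : Real.exp (-∑ q ∈ S, (1 : ℝ) / (q : ℝ)) ≤ ε / 2 := by
      have h3 : Real.exp (-∑ q ∈ S, (1 : ℝ) / (q : ℝ)) ≤ Real.exp (-Real.log (2 / ε)) :=
        Real.exp_le_exp.2 (neg_le_neg hK)
      have h4 : Real.exp (-Real.log (2 / ε)) = ε / 2 := by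
        rw [Real.exp_neg, Real.exp_log (by positivity), inv_div]
      linarith
    have h5 : (0 : ℝ) ≤ (Y : ℝ) ^ 2 := by positivity
    nlinarith

end Pool.Agent.H75.PSQ
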